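import Pool.Agent.U841.TI.Cex

/-!
# A separable nuclear stably finite C*-algebra that is not locally of type I

The example is the unitisation of the cone over the Cuntz algebra `O_2`: the C*-algebra of the
continuous functions `f` on `[0, 1]` with values in `O_2` such that `f 0` is scalar.

* It is nuclear (starting files `Pool/Agent/W658/ConeDefs.lean`, `Pool/Agent/W658/Cone.lean`).
* It is stably finite: if `v` is an isometry in a matrix algebra over it, then `1 - v(t) v(t)*` is a
  continuous path of projections which starts at `0`.
* It is not locally approximable: the values at `1` of a type I subalgebra near `t s_1`, `t s_2`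
  form, after closing, a unital type I algebra which contains approximate Cuntz isometries; but a
  unital type I algebra has a nonzero finite-dimensional representation (take a pure state that
  vanishes on a maximal two-sided ideal), and there the trace gives a contradiction.

The definitions used in the statement are in `Pool/Agent/W658/TIDefs.lean`.
-/

set_option autoImplicit false

namespace Pool.Agent.Results.MP_b9f29c_an.UnitisedCone

open Pool.Agent.W658.TypeI

/-- There is a unital C*-algebra which is separable, nuclear and stably finite, but not locally
approximable by type I C*-algebras. -/
theorem result : ∃ (A : Type) (_ : CStarAlgebra A) (_ : PartialOrder A) (_ : StarOrderedRing A),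
    TopologicalSpace.SeparableSpace A ∧ IsNuclear A ∧ IsStablyFinite A ∧ ¬ LocallyTypeI A :=
  ⟨Pool.Agent.W658.Cone.CA, inferInstance, inferInstance, inferInstance,
    Pool.Agent.W658.Cone.separable_CA, Pool.Agent.W658.Cone.nuclear_CA,
    Pool.Agent.U841.TI.stablyFinite_CA, Pool.Agent.U841.TI.not_locallyTypeI_CA⟩

end Pool.Agent.Results.MP_b9f29c_an.UnitisedCone
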